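import Mathlib

set_option autoImplicit false

namespace Pool.Agent.P.MP_ada129_co

/-- Evaluate a natural number before passing it on. -/
noncomputable def force {α : Type} (x : ℕ) (k : ℕ → α) : α :=
  Nat.casesOn x (k 0) (fun n => k (Nat.succ n))

theorem force_eq {α : Type} (x : ℕ) (k : ℕ → α) : force x k = k x := by
  cases x <;> rfl

/-- Evaluate a list before passing it on. -/
noncomputable def forceL {α : Type} (l : List ℕ) (k : List ℕ → α) : α :=
  List.casesOn l (k []) (fun x xs => k (x :: xs))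

theorem forceL_eq {α : Type} (l : List ℕ) (k : List ℕ → α) : forceL l k = k l := by
  cases l <;> rfl

/-- Reverse the first list onto the second. -/
noncomputable def revA (l : List ℕ) : List ℕ → List ℕ :=
  List.rec (fun acc => acc) (fun x _ ih acc => forceL (x :: acc) ih) l

theorem mem_revA (l : List ℕ) : ∀ (acc : List ℕ) (t : ℕ), t ∈ l ∨ t ∈ acc → t ∈ revA l acc := by
  induction l with
  | nil => intro acc t h; simpa [revA] using h
  | cons x xs ih =>
    intro acc t h
    change t ∈ forceL (x :: acc) (revA xs)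
    rw [forceL_eq]
    apply ih
    simp only [List.mem_cons] at h ⊢
    tauto

/-- Apply one colour pattern to every compatible state. -/
noncomputable def applyPat (mask forb : ℕ) (l : List ℕ) : List ℕ → List ℕ :=
  List.rec (fun acc => acc)
    (fun s _ ih acc => cond (Nat.beq (Nat.land s forb) 0)
      (force (Nat.xor s mask) fun t => ih (t :: acc)) (ih acc)) l

theorem mem_applyPat (mask forb : ℕ) (l : List ℕ) : ∀ (acc : List ℕ) (t : ℕ),
    (∃ s ∈ l, s &&& forb = 0 ∧ t = s ^^^ mask) ∨ t ∈ acc → t ∈ applyPat mask forb l acc := by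
  induction l with
  | nil => intro acc t h; simpa [applyPat] using h
  | cons x xs ih =>
    intro acc t h
    change t ∈ cond (Nat.beq (Nat.land x forb) 0)
      (force (Nat.xor x mask) fun t => applyPat mask forb xs (t :: acc)) (applyPat mask forb xs acc)
    rw [force_eq]
    cases hb : Nat.beq (Nat.land x forb) 0 with
    | true =>
      apply ih
      rcases h with ⟨s, hs, h1, h2⟩ | h
      · rcases List.mem_cons.mp hs with rfl | hs
        · right; rw [h2]; exact List.mem_cons_self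
        · exact Or.inl ⟨s, hs, h1, h2⟩
      · exact Or.inr (List.mem_cons_of_mem _ h)
    | false =>
      apply ih
      rcases h with ⟨s, hs, h1, h2⟩ | h
      · rcases List.mem_cons.mp hs with rfl | hs
        · exfalso
          have : Nat.land s forb = 0 := h1
          rw [this] at hb
          exact absurd hb (by decide)
        · exact Or.inl ⟨s, hs, h1, h2⟩
      · exact Or.inr h

/-- Inner loop of the merge. -/
noncomputable def mergeIn (x : ℕ) (xs : List ℕ) (rec : List ℕ → List ℕ → List ℕ) (ys : List ℕ) :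
    List ℕ → List ℕ :=
  List.rec (fun acc => revA (x :: xs) acc)
    (fun y ys' ih acc => cond (Nat.ble x y)
      (cond (Nat.beq x y) (rec ys' (x :: acc)) (rec (y :: ys') (x :: acc))) (ih (y :: acc))) ys

/-- Merge two increasing lists, dropping duplicates, onto an accumulator. -/
noncomputable def mergeA (xs : List ℕ) : List ℕ → List ℕ → List ℕ :=
  List.rec (fun ys acc => revA ys acc) (fun x xs' ih ys acc => mergeIn x xs' ih ys acc) xs

theorem mem_mergeA (xs : List ℕ) : ∀ (ys acc : List ℕ) (t : ℕ),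
    t ∈ xs ∨ t ∈ ys ∨ t ∈ acc → t ∈ mergeA xs ys acc := by
  induction xs with
  | nil => intro ys acc t h; exact mem_revA ys acc t (by simpa using h)
  | cons x xs ih =>
    intro ys
    change ∀ (acc : List ℕ) (t : ℕ), _ → t ∈ mergeIn x xs (mergeA xs) ys acc
    induction ys with
    | nil => intro acc t h; exact mem_revA (x :: xs) acc t (by simpa using h)
    | cons y ys ih2 =>
      intro acc t h
      change t ∈ cond (Nat.ble x y)
        (cond (Nat.beq x y) (mergeA xs ys (x :: acc)) (mergeA xs (y :: ys) (x :: acc)))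
        (mergeIn x xs (mergeA xs) ys (y :: acc))
      simp only [List.mem_cons] at h
      cases Nat.ble x y with
      | true =>
        cases hb : Nat.beq x y with
        | true =>
          have : x = y := Nat.eq_of_beq_eq_true hb
          subst this
          apply ih
          simp only [List.mem_cons]
          tauto
        | false =>
          apply ih
          simp only [List.mem_cons]
          tauto
      | false =>
        apply ih2
        simp only [List.mem_cons]
        tauto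

/-- The bit recording that edge `e` has colour `c`. -/
def bit (e c : ℕ) : ℕ := 2 ^ (64 + 3 * e + c)

/-- The bit together with a hash value in the low 64 bits. -/
def hbit (e c : ℕ) : ℕ :=
  bit e c ^^^ ((3 * e + c + 1) ^ 3 * 11400714819323198485 / 65536) % 2 ^ 64

/-- The bits of the two colours other than `c` on edge `e`. -/
def forbid (e c : ℕ) : ℕ := bit e ((c + 1) % 3) ||| bit e ((c + 2) % 3)

/-- Apply a list of colour patterns at a vertex with edges `a`, `b`, `c`. -/
noncomputable def foldPats (a b c : ℕ) (l : List ℕ) (ps : List (ℕ × ℕ × ℕ)) : List ℕ → List ℕ :=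
  List.rec (fun res => res)
    (fun p _ ih res =>
      force (hbit a p.1 ^^^ hbit b p.2.1 ^^^ hbit c p.2.2) fun mask =>
      force (forbid a p.1 ||| forbid b p.2.1 ||| forbid c p.2.2) fun forb =>
      forceL (applyPat mask forb l []) fun l1 =>
      forceL (revA l1 []) fun l2 =>
      forceL (mergeA l2 res []) fun l3 =>
      forceL (revA l3 []) ih) ps

theorem mem_foldPats (a b c : ℕ) (l : List ℕ) (ps : List (ℕ × ℕ × ℕ)) :
    ∀ (res : List ℕ) (t : ℕ),
    (∃ p ∈ ps, ∃ s ∈ l, s &&& (forbid a p.1 ||| forbid b p.2.1 ||| forbid c p.2.2) = 0 ∧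
      t = s ^^^ (hbit a p.1 ^^^ hbit b p.2.1 ^^^ hbit c p.2.2)) ∨ t ∈ res →
      t ∈ foldPats a b c l ps res := by
  induction ps with
  | nil => intro res t h; simpa [foldPats] using h
  | cons p ps ih =>
    intro res t h
    change t ∈ force (hbit a p.1 ^^^ hbit b p.2.1 ^^^ hbit c p.2.2) fun mask =>
      force (forbid a p.1 ||| forbid b p.2.1 ||| forbid c p.2.2) fun forb =>
      forceL (applyPat mask forb l []) fun l1 =>
      forceL (revA l1 []) fun l2 =>
      forceL (mergeA l2 res []) fun l3 =>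
      forceL (revA l3 []) (foldPats a b c l ps)
    simp only [force_eq, forceL_eq]
    apply ih
    rcases h with ⟨q, hq, s, hs, h1, h2⟩ | h
    · rcases List.mem_cons.mp hq with rfl | hq
      · right
        refine mem_revA _ _ _ (Or.inl (mem_mergeA _ _ _ _ (Or.inl ?_)))
        exact mem_revA _ _ _ (Or.inl (mem_applyPat _ _ _ _ _ (Or.inl ⟨s, hs, h1, h2⟩)))
      · exact Or.inl ⟨q, hq, s, hs, h1, h2⟩
    · right
      exact mem_revA _ _ _ (Or.inl (mem_mergeA _ _ _ _ (Or.inr (Or.inl h))))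

/-- The state `s` records only true colours. -/
def Ok (col : ℕ → ℕ) (s : ℕ) : Prop :=
  ∀ e c, c < 3 → s.testBit (64 + 3 * e + c) = true → col e = c

theorem ok_zero (col : ℕ → ℕ) : Ok col 0 := by
  intro e c _ h
  simp at h

theorem ok_xor {col : ℕ → ℕ} {s : ℕ} (hs : Ok col s) (a : ℕ) (ha : col a < 3) :
    Ok col (s ^^^ hbit a (col a)) := by
  intro e c hc h
  have hz : (((3 * a + col a + 1) ^ 3 * 11400714819323198485 / 65536) % 2 ^ 64).testBit
      (64 + 3 * e + c) = false := by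
    apply Nat.testBit_lt_two_pow
    exact lt_of_lt_of_le (Nat.mod_lt _ (by norm_num))
      (Nat.pow_le_pow_right (by norm_num) (by omega))
  rw [Nat.testBit_xor, hbit, Nat.testBit_xor, hz, Bool.xor_false, bit, Nat.testBit_two_pow] at h
  by_cases he : 64 + 3 * a + col a = 64 + 3 * e + c
  · have : a = e := by omega
    subst this
    omega
  · simp only [he, decide_false, Bool.xor_false] at h
    exact hs e c hc h

theorem ok_and {col : ℕ → ℕ} {s : ℕ} (hs : Ok col s) (a : ℕ) (ha : col a < 3) :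
    s &&& forbid a (col a) = 0 := by
  apply Nat.eq_of_testBit_eq
  intro i
  rw [Nat.testBit_and, forbid, Nat.testBit_or, bit, bit, Nat.testBit_two_pow, Nat.testBit_two_pow,
    Nat.zero_testBit]
  cases h : s.testBit i with
  | false => rfl
  | true =>
    have h1 : ¬ 64 + 3 * a + (col a + 1) % 3 = i := by
      rintro rfl
      have := hs a _ (Nat.mod_lt _ (by norm_num)) h
      omega
    have h2 : ¬ 64 + 3 * a + (col a + 2) % 3 = i := by
      rintro rfl
      have := hs a _ (Nat.mod_lt _ (by norm_num)) h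
      omega
    simp [h1, h2]

theorem step_mem {col : ℕ → ℕ} (hcol : ∀ e, col e < 3) {s : ℕ} (hs : Ok col s) (a b c : ℕ)
    {l : List ℕ} (hl : s ∈ l) {ps : List (ℕ × ℕ × ℕ)} (hp : (col a, col b, col c) ∈ ps) :
    ∃ t, Ok col t ∧ ∀ res, t ∈ foldPats a b c l ps res := by
  refine ⟨s ^^^ (hbit a (col a) ^^^ hbit b (col b) ^^^ hbit c (col c)), ?_, fun res => ?_⟩
  · rw [← Nat.xor_assoc, ← Nat.xor_assoc]
    exact ok_xor (ok_xor (ok_xor hs a (hcol a)) b (hcol b)) c (hcol c)
  · refine mem_foldPats _ _ _ _ _ _ _ (Or.inl ⟨_, hp, s, hl, ?_, rfl⟩)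
    simp only [Nat.and_or_distrib_left, ok_and hs a (hcol a), ok_and hs b (hcol b),
      ok_and hs c (hcol c), Nat.or_self]

/-- Patterns of cost zero. -/
def pats0 : List (ℕ × ℕ × ℕ) := [(0, 1, 2), (0, 2, 1), (1, 0, 2), (1, 2, 0), (2, 0, 1), (2, 1, 0)]

/-- One level of one step. -/
noncomputable def lev (ps1 : List (ℕ × ℕ × ℕ)) (t : ℕ × ℕ × ℕ) (cur prev : List ℕ) : List ℕ :=
  forceL (foldPats t.1 t.2.1 t.2.2 cur pats0 []) (foldPats t.1 t.2.1 t.2.2 prev ps1)

/-- The whole dynamic programme with five cost levels. -/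
noncomputable def run (ps1 : List (ℕ × ℕ × ℕ)) (vs : List (ℕ × ℕ × ℕ)) :
    List ℕ → List ℕ → List ℕ → List ℕ → List ℕ → Bool :=
  List.rec (fun l0 l1 l2 l3 l4 => l0.isEmpty && l1.isEmpty && l2.isEmpty && l3.isEmpty && l4.isEmpty)
    (fun t _ ih l0 l1 l2 l3 l4 =>
      forceL (lev ps1 t l0 []) fun k0 =>
      forceL (lev ps1 t l1 l0) fun k1 =>
      forceL (lev ps1 t l2 l1) fun k2 =>
      forceL (lev ps1 t l3 l2) fun k3 =>
      forceL (lev ps1 t l4 l3) fun k4 => ih k0 k1 k2 k3 k4) vs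

theorem lev_cur {col : ℕ → ℕ} (hcol : ∀ e, col e < 3) {s : ℕ} (hs : Ok col s)
    (ps1 : List (ℕ × ℕ × ℕ)) (t : ℕ × ℕ × ℕ) {cur : List ℕ} (prev : List ℕ) (hl : s ∈ cur)
    (hp : (col t.1, col t.2.1, col t.2.2) ∈ pats0) : ∃ u, Ok col u ∧ u ∈ lev ps1 t cur prev := by
  obtain ⟨u, hu, h⟩ := step_mem hcol hs t.1 t.2.1 t.2.2 hl hp
  refine ⟨u, hu, ?_⟩
  rw [lev, forceL_eq]
  exact mem_foldPats _ _ _ _ _ _ _ (Or.inr (h _))

theorem lev_prev {col : ℕ → ℕ} (hcol : ∀ e, col e < 3) {s : ℕ} (hs : Ok col s)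
    (ps1 : List (ℕ × ℕ × ℕ)) (t : ℕ × ℕ × ℕ) (cur : List ℕ) {prev : List ℕ} (hl : s ∈ prev)
    (hp : (col t.1, col t.2.1, col t.2.2) ∈ ps1) : ∃ u, Ok col u ∧ u ∈ lev ps1 t cur prev := by
  obtain ⟨u, hu, h⟩ := step_mem hcol hs t.1 t.2.1 t.2.2 hl hp
  refine ⟨u, hu, ?_⟩
  rw [lev, forceL_eq]
  exact h _

/-- Soundness of the dynamic programme. -/
theorem run_sound {W : Type} {col : ℕ → ℕ} (hcol : ∀ e, col e < 3) (ps1 : List (ℕ × ℕ × ℕ))
    (tri : W → ℕ × ℕ × ℕ) (d : W → ℕ)
    (hd : ∀ v, (d v = 0 ∧ (col (tri v).1, col (tri v).2.1, col (tri v).2.2) ∈ pats0) ∨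
      (d v = 1 ∧ (col (tri v).1, col (tri v).2.1, col (tri v).2.2) ∈ ps1))
    (vs : List W) : ∀ (l0 l1 l2 l3 l4 : List ℕ), run ps1 (vs.map tri) l0 l1 l2 l3 l4 = true →
      ∀ (c s : ℕ), Ok col s →
      ((c = 0 ∧ s ∈ l0) ∨ (c = 1 ∧ s ∈ l1) ∨ (c = 2 ∧ s ∈ l2) ∨ (c = 3 ∧ s ∈ l3) ∨
        (c = 4 ∧ s ∈ l4)) → 4 < c + (vs.map d).sum := by
  induction vs with
  | nil =>
    intro l0 l1 l2 l3 l4 h c s _ hs
    have h' : (l0.isEmpty && l1.isEmpty && l2.isEmpty && l3.isEmpty && l4.isEmpty) = true := h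
    simp only [Bool.and_eq_true, List.isEmpty_iff] at h'
    obtain ⟨⟨⟨⟨rfl, rfl⟩, rfl⟩, rfl⟩, rfl⟩ := h'
    simp at hs
  | cons v vs ih =>
    intro l0 l1 l2 l3 l4 h c s hok hs
    have h' : (forceL (lev ps1 (tri v) l0 []) fun k0 =>
      forceL (lev ps1 (tri v) l1 l0) fun k1 =>
      forceL (lev ps1 (tri v) l2 l1) fun k2 =>
      forceL (lev ps1 (tri v) l3 l2) fun k3 =>
      forceL (lev ps1 (tri v) l4 l3) fun k4 => run ps1 (vs.map tri) k0 k1 k2 k3 k4) = true := h
    simp only [forceL_eq] at h'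
    have key := ih _ _ _ _ _ h'
    rw [List.map_cons, List.sum_cons]
    rcases hd v with ⟨h0, hp⟩ | ⟨h1, hp⟩
    · rw [h0, zero_add]
      rcases hs with ⟨rfl, hs⟩ | ⟨rfl, hs⟩ | ⟨rfl, hs⟩ | ⟨rfl, hs⟩ | ⟨rfl, hs⟩
      · obtain ⟨u, hu, hm⟩ := lev_cur hcol hok ps1 (tri v) [] hs hp
        exact key 0 u hu (by simp [hm])
      · obtain ⟨u, hu, hm⟩ := lev_cur hcol hok ps1 (tri v) l0 hs hp
        exact key 1 u hu (by simp [hm])
      · obtain ⟨u, hu, hm⟩ := lev_cur hcol hok ps1 (tri v) l1 hs hp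
        exact key 2 u hu (by simp [hm])
      · obtain ⟨u, hu, hm⟩ := lev_cur hcol hok ps1 (tri v) l2 hs hp
        exact key 3 u hu (by simp [hm])
      · obtain ⟨u, hu, hm⟩ := lev_cur hcol hok ps1 (tri v) l3 hs hp
        exact key 4 u hu (by simp [hm])
    · rw [h1, ← add_assoc]
      rcases hs with ⟨rfl, hs⟩ | ⟨rfl, hs⟩ | ⟨rfl, hs⟩ | ⟨rfl, hs⟩ | ⟨rfl, hs⟩
      · obtain ⟨u, hu, hm⟩ := lev_prev hcol hok ps1 (tri v) l1 hs hp
        exact key 1 u hu (by simp [hm])
      · obtain ⟨u, hu, hm⟩ := lev_prev hcol hok ps1 (tri v) l2 hs hp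
        exact key 2 u hu (by simp [hm])
      · obtain ⟨u, hu, hm⟩ := lev_prev hcol hok ps1 (tri v) l3 hs hp
        exact key 3 u hu (by simp [hm])
      · obtain ⟨u, hu, hm⟩ := lev_prev hcol hok ps1 (tri v) l4 hs hp
        exact key 4 u hu (by simp [hm])
      · omega

end Pool.Agent.P.MP_ada129_co
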