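import Mathlib

set_option autoImplicit false

namespace Pool.Agent.P.MP_ada129_co

/-- `F` is a 2-factor of `G`: a spanning subgraph in which every vertex has degree 2. -/
def IsTwoFactor {V : Type*} (G F : SimpleGraph V) : Prop :=
  F ≤ G ∧ ∀ v, (F.neighborSet v).ncard = 2

/-- `F` is an even factor of `G`: a spanning subgraph in which every vertex has degree 0 or 2. -/
def IsEvenFactor {V : Type*} (G F : SimpleGraph V) : Prop :=
  F ≤ G ∧ ∀ v, (F.neighborSet v).ncard = 0 ∨ (F.neighborSet v).ncard = 2

/-- The oddness of `G` is `k`: `k` is the least number of odd components (odd circuits) of a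
2-factor of `G`. -/
def HasOddness {V : Type*} (G : SimpleGraph V) (k : ℕ) : Prop :=
  IsLeast {j | ∃ F, IsTwoFactor G F ∧ F.oddComponents.ncard = j} k

/-- The weak oddness of `G` is `k`: `k` is the least number of odd components (odd circuits and
isolated vertices) of an even factor of `G`. -/
def HasWeakOddness {V : Type*} (G : SimpleGraph V) (k : ℕ) : Prop :=
  IsLeast {j | ∃ F, IsEvenFactor G F ∧ F.oddComponents.ncard = j} k

end Pool.Agent.P.MP_ada129_co
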