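import Pool.Agent.P.MP_ada129_co.Defs

set_option autoImplicit false

namespace Pool.Agent.P.MP_ada129_co

open SimpleGraph

variable {V : Type*}

/-- An involution that moves points only along edges of `F` (a matching of `F`). -/
def IsInv (F : SimpleGraph V) (m : V → V) : Prop :=
  (∀ v, m (m v) = v) ∧ ∀ v, m v ≠ v → F.Adj v (m v)

/-- Parity of an invariant set under an involution. -/
theorem parity_inv [Finite V] (m : V → V) (hm : ∀ v, m (m v) = v) (S : Set V)
    (hS : ∀ v ∈ S, m v ∈ S) : S.ncard ≡ {v ∈ S | m v = v}.ncard [MOD 2] := by
  classical
  haveI : Fintype S := Fintype.ofFinite S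
  let f : Function.End S := fun x => ⟨m x, hS x x.2⟩
  have hf : f ^ 2 ^ 1 = 1 := by
    funext x
    apply Subtype.ext
    exact hm x
  haveI : Fact (Nat.Prime 2) := ⟨Nat.prime_two⟩
  have h := Equiv.Perm.card_fixedPoints_modEq hf
  have e1 : S.ncard = Fintype.card S := by
    rw [← Nat.card_coe_set_eq, Nat.card_eq_fintype_card]
  have e2 : {v ∈ S | m v = v}.ncard = Fintype.card (Function.fixedPoints f) := by
    rw [← Nat.card_eq_fintype_card, Nat.card_coe_set_eq]
    rw [← Set.ncard_image_of_injective _ Subtype.val_injective]
    congr 1
    ext v
    constructor
    · rintro ⟨hv, hv2⟩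
      exact ⟨⟨v, hv⟩, Subtype.ext hv2, rfl⟩
    · rintro ⟨x, hx, rfl⟩
      exact ⟨x.2, congrArg Subtype.val hx⟩
  rw [e1, e2]
  exact h

theorem supp_inv {F : SimpleGraph V} {m : V → V} (hm : IsInv F m) (c : F.ConnectedComponent) :
    ∀ v ∈ c.supp, m v ∈ c.supp := by
  intro v hv
  by_cases h : m v = v
  · rwa [h]
  · rw [ConnectedComponent.mem_supp_iff] at hv ⊢
    rw [← hv]
    exact ConnectedComponent.sound (hm.2 v h).symm.reachable

/-- Every odd component contains a fixed point. -/
theorem odd_le_fixed [Finite V] {F : SimpleGraph V} {m : V → V} (hm : IsInv F m) :
    F.oddComponents.ncard ≤ {v | m v = v}.ncard := by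
  refine le_trans (Set.ncard_le_ncard (t := F.connectedComponentMk '' {v | m v = v}) ?_)
    (Set.ncard_image_le)
  intro c hc
  have h1 := parity_inv m hm.1 c.supp (supp_inv hm c)
  have h2 : {v ∈ c.supp | m v = v}.ncard ≠ 0 := by
    intro h0
    rw [h0] at h1
    have : Odd c.supp.ncard := hc
    rw [Nat.odd_iff] at this
    unfold Nat.ModEq at h1
    omega
  obtain ⟨v, hv1, hv2⟩ := Set.nonempty_of_ncard_ne_zero h2
  exact ⟨v, hv2, hv1⟩

theorem no_two_fixed [Finite V] {F : SimpleGraph V} (hdeg : ∀ v, (F.neighborSet v).ncard ≤ 2)
    (k : ℕ) (hk : ∀ m, IsInv F m → k ≤ {v | m v = v}.ncard) :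
    ∀ (n : ℕ) (m : V → V), IsInv F m → {v | m v = v}.ncard = k → ∀ u w : V, m u = u → m w = w →
      ∀ p : F.Walk u w, p.length = n → u = w := by
  classical
  intro n
  induction n using Nat.strong_induction_on with
  | _ n ih =>
  intro m hm hmk u w hu hw p hp
  by_contra huw
  cases p with
  | nil => exact huw rfl
  | @cons _ x _ hux q =>
    have hne : u ≠ x := hux.ne
    by_cases hx : m x = x
    · -- augment
      let m' : V → V := fun v => if v = u then x else if v = x then u else m v
      have hm' : IsInv F m' := by
        constructor
        · intro v
          by_cases h1 : v = u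
          · subst h1; simp [m', hne.symm]
          · by_cases h2 : v = x
            · subst h2; simp [m', h1]
            · have h3 : m v ≠ u := fun h => h1 (by rw [← hm.1 v, h, hu])
              have h4 : m v ≠ x := fun h => h2 (by rw [← hm.1 v, h, hx])
              simp [m', h1, h2, h3, h4, hm.1 v]
        · intro v hv
          by_cases h1 : v = u
          · subst h1; simpa [m'] using hux
          · by_cases h2 : v = x
            · subst h2; simpa [m', h1] using hux.symm
            · simp only [m', h1, h2, if_false] at hv ⊢
              exact hm.2 v hv
      have hss : {v | m' v = v} ⊂ {v | m v = v} := by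
        constructor
        · intro v hv
          by_cases h1 : v = u
          · subst h1; exact hu
          · by_cases h2 : v = x
            · subst h2; exact hx
            · simpa [m', h1, h2] using hv
        · intro hsub
          have := hsub (show u ∈ {v | m v = v} from hu)
          simp [m'] at this
          exact hne this.symm
      have := Set.ncard_lt_ncard hss
      have := hk m' hm'
      omega
    · have hxy : F.Adj x (m x) := hm.2 x hx
      have hyu : m x ≠ u := fun h => hne (by rw [← hu, ← h, hm.1 x])
      cases q with
      | nil => exact hx hw
      | @cons _ z _ hxz r =>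
        have hz : z = u ∨ z = m x := by
          by_contra hcon
          push Not at hcon
          have hsub : ({u, m x, z} : Set V) ⊆ F.neighborSet x := by
            intro t ht
            rcases ht with rfl | rfl | rfl
            · exact hux.symm
            · exact hxy
            · exact hxz
          have h3 : ({u, m x, z} : Set V).ncard = 3 :=
            Set.ncard_eq_three.mpr ⟨u, m x, z, hyu.symm, hcon.1.symm, hcon.2.symm, rfl⟩
          have := Set.ncard_le_ncard hsub
          have := hdeg x
          omega
        simp only [Walk.length_cons] at hp
        rcases hz with rfl | rfl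
        · exact huw (ih r.length (by omega) m hm hmk z w hu hw r rfl)
        · let m' : V → V := fun v =>
            if v = u then x else if v = x then u else if v = m x then m x else m v
          have hm' : IsInv F m' := by
            constructor
            · intro v
              by_cases h1 : v = u
              · subst h1; simp [m', hne.symm]
              · by_cases h2 : v = x
                · subst h2; simp [m', h1]
                · by_cases h5 : v = m x
                  · subst h5; simp [m', h1, h2]
                  · have h3 : m v ≠ u := fun h => h1 (by rw [← hm.1 v, h, hu])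
                    have h4 : m v ≠ x := fun h => h5 (by rw [← hm.1 v, h])
                    have h6 : m v ≠ m x := fun h => h2 (by rw [← hm.1 v, h, hm.1 x])
                    simp [m', h1, h2, h3, h4, h5, h6, hm.1 v]
            · intro v hv
              by_cases h1 : v = u
              · subst h1; simpa [m'] using hux
              · by_cases h2 : v = x
                · subst h2; simpa [m', h1] using hux.symm
                · by_cases h5 : v = m x
                  · subst h5; simp [m', h1, h2] at hv
                  · simp only [m', h1, h2, h5, if_false] at hv ⊢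
                    exact hm.2 v hv
          have hset : {v | m' v = v} = insert (m x) ({v | m v = v} \ {u}) := by
            ext v
            by_cases h1 : v = u
            · subst h1; simp [m', hne.symm, hyu.symm]
            · by_cases h2 : v = x
              · subst h2
                simp [m', h1, Ne.symm h1, hx, Ne.symm hx]
              · by_cases h5 : v = m x
                · subst h5; simp [m', h1, h2]
                · simp [m', h1, h2, h5]
          have hcard : {v | m' v = v}.ncard = k := by
            apply le_antisymm _ (hk m' hm')
            rw [hset, ← hmk]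
            have h1 := Set.ncard_insert_le (m x) ({v | m v = v} \ {u})
            have h2 := Set.ncard_diff_singleton_add_one (s := {v | m v = v}) (a := u) hu
            omega
          have hwx : w ≠ x := fun h => hx (h ▸ hw)
          have hwy : w ≠ m x := fun h => hwx (by rw [← hw, h, hm.1 x])
          have hy' : m' (m x) = m x := by simp [m', hyu, hx]
          have hw' : m' w = w := by simp [m', Ne.symm huw, hwx, hwy, hw]
          exact hwy (ih r.length (by omega) m' hm' hcard (m x) w hy' hw' r rfl).symm

/-- A graph of maximum degree two has a matching missing at most one vertex per odd component. -/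
theorem exists_inv [Finite V] {F : SimpleGraph V} (hdeg : ∀ v, (F.neighborSet v).ncard ≤ 2) :
    ∃ m, IsInv F m ∧ {v | m v = v}.ncard ≤ F.oddComponents.ncard := by
  classical
  have hex : ∃ k, ∃ m, IsInv F m ∧ {v | m v = v}.ncard = k :=
    ⟨_, id, ⟨fun _ => rfl, fun _ h => absurd rfl h⟩, rfl⟩
  obtain ⟨m, hm, hmk⟩ := Nat.find_spec hex
  have hk : ∀ m, IsInv F m → Nat.find hex ≤ {v | m v = v}.ncard :=
    fun m' hm' => Nat.find_min' hex ⟨m', hm', rfl⟩
  have huniq : ∀ u w, m u = u → m w = w → F.Reachable u w → u = w := by
    rintro u w hu hw ⟨p⟩
    exact no_two_fixed hdeg _ hk _ m hm hmk u w hu hw p rfl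
  refine ⟨m, hm, ?_⟩
  refine Set.ncard_le_ncard_of_injOn F.connectedComponentMk ?_ ?_
  · intro u hu
    have h1 := parity_inv m hm.1 _ (supp_inv hm (F.connectedComponentMk u))
    have h2 : {v ∈ (F.connectedComponentMk u).supp | m v = v} = {u} := by
      ext v
      constructor
      · rintro ⟨hv1, hv2⟩
        rw [ConnectedComponent.mem_supp_iff, ConnectedComponent.eq] at hv1
        exact huniq v u hv2 hu hv1
      · rintro rfl
        exact ⟨rfl, hu⟩
    rw [h2, Set.ncard_singleton] at h1
    change Odd _
    rw [Nat.odd_iff]
    exact h1
  · intro u hu w hw h
    exact huniq u w hu hw (ConnectedComponent.exact h)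

end Pool.Agent.P.MP_ada129_co
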