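import Pool.Agent.P.MP_ada129_co.Run
import Pool.Agent.P.MP_ada129_co.Matching

set_option autoImplicit false

namespace Pool.Agent.P.MP_ada129_co

open SimpleGraph

/-- Vertex with a given number. -/
def vx (k : ℕ) : Fin 82 := ⟨k % 82, Nat.mod_lt _ (by norm_num)⟩

/-- Component of a triple. -/
def comp (t : ℕ × ℕ × ℕ) (i : Fin 3) : ℕ := ![t.1, t.2.1, t.2.2] i

/-- The `i`-th neighbour of `v`. -/
def nb (v : Fin 82) (i : Fin 3) : Fin 82 := vx (comp (nbT.getD v (0, 0, 0)) i)

/-- The edge numbers at `v`. -/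
def tri (v : Fin 82) : ℕ × ℕ × ℕ := eiT.getD v (0, 0, 0)

/-- The ends of edge number `e`. -/
def ends (e : ℕ) : Fin 82 × Fin 82 := (vx (endT.getD e (0, 0)).1, vx (endT.getD e (0, 0)).2)

theorem nb_symm : ∀ v i, ∃ j, nb (nb v i) j = v ∧ comp (tri (nb v i)) j = comp (tri v) i := by
  decide +kernel

theorem nb_ne : ∀ v i, nb v i ≠ v := by decide +kernel

theorem nb_inj : ∀ v, nb v 0 ≠ nb v 1 ∧ nb v 0 ≠ nb v 2 ∧ nb v 1 ≠ nb v 2 := by decide +kernel

theorem ends_tri : ∀ v i, ends (comp (tri v) i) = (v, nb v i) ∨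
    ends (comp (tri v) i) = (nb v i, v) := by decide +kernel

theorem map_tri : (List.finRange 82).map tri = eiT := by decide +kernel

/-- The subgraph of edges whose colour in the table `c` is nonzero. -/
def sub (c : ℕ → ℕ) : SimpleGraph (Fin 82) where
  Adj u v := ∃ i, nb u i = v ∧ c (comp (tri u) i) ≠ 0
  symm := ⟨by
    rintro u _ ⟨i, rfl, hc⟩
    obtain ⟨j, h1, h2⟩ := nb_symm u i
    exact ⟨j, h1, h2 ▸ hc⟩⟩
  loopless := ⟨by
    rintro u ⟨i, h, -⟩
    exact nb_ne u i h⟩

instance (c : ℕ → ℕ) : DecidableRel (sub c).Adj := fun u v =>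
  inferInstanceAs (Decidable (∃ i, nb u i = v ∧ c (comp (tri u) i) ≠ 0))

/-- The 82-vertex graph. -/
def G : SimpleGraph (Fin 82) := sub fun _ => 1

instance : DecidableRel G.Adj := inferInstanceAs (DecidableRel (sub fun _ => 1).Adj)

theorem G_adj {u v : Fin 82} : G.Adj u v ↔ ∃ i, nb u i = v := by
  simp [G, sub]

theorem sub_le (c : ℕ → ℕ) : sub c ≤ G := by
  rintro u v ⟨i, h, -⟩
  exact G_adj.mpr ⟨i, h⟩

open Classical in
theorem ncard_nbr {F : SimpleGraph (Fin 82)} (hF : F ≤ G) (v : Fin 82) :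
    (F.neighborSet v).ncard = (if F.Adj v (nb v 0) then 1 else 0) +
      (if F.Adj v (nb v 1) then 1 else 0) + (if F.Adj v (nb v 2) then 1 else 0) := by
  obtain ⟨h01, h02, h12⟩ := nb_inj v
  have : F.neighborSet v =
      ((({nb v 0, nb v 1, nb v 2} : Finset (Fin 82)).filter fun w => F.Adj v w : Finset _) :
        Set (Fin 82)) := by
    ext w
    simp only [mem_neighborSet, Finset.coe_filter, Finset.mem_insert, Finset.mem_singleton,
      Set.mem_ofPred_eq]
    constructor
    · intro h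
      obtain ⟨i, rfl⟩ := G_adj.mp (hF h)
      refine ⟨?_, h⟩
      fin_cases i <;> simp
    · exact fun h => h.2
  rw [this, Set.ncard_coe_finset, Finset.card_filter, Finset.sum_insert (by simp [h01, h02]),
    Finset.sum_insert (by simp [h12]), Finset.sum_singleton, add_assoc]

open Classical in
/-- Colour of a pair of vertices. -/
noncomputable def pc (F : SimpleGraph (Fin 82)) (m : Fin 82 → Fin 82) (u v : Fin 82) : ℕ :=
  if F.Adj u v then (if m u = v then 1 else 2) else 0

theorem pc_symm {F : SimpleGraph (Fin 82)} {m : Fin 82 → Fin 82} (hm : IsInv F m) (u v : Fin 82) :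
    pc F m u v = pc F m v u := by
  have h : m u = v ↔ m v = u := ⟨fun h => by rw [← h, hm.1], fun h => by rw [← h, hm.1]⟩
  have h2 : F.Adj u v ↔ F.Adj v u := F.adj_comm u v
  by_cases a : F.Adj u v <;> by_cases b : m u = v <;> simp [pc, a, b, ← h, ← h2]

theorem pc_lt (F : SimpleGraph (Fin 82)) (m : Fin 82 → Fin 82) (u v : Fin 82) :
    pc F m u v < 3 := by
  unfold pc
  split_ifs <;> norm_num

theorem local_pat {F : SimpleGraph (Fin 82)} (hF : F ≤ G) {m : Fin 82 → Fin 82} (hm : IsInv F m)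
    (v : Fin 82) :
    ((F.neighborSet v).ncard = 2 →
      (m v ≠ v ∧ (pc F m v (nb v 0), pc F m v (nb v 1), pc F m v (nb v 2)) ∈ pats0) ∨
      (m v = v ∧ (pc F m v (nb v 0), pc F m v (nb v 1), pc F m v (nb v 2)) ∈ patsS)) ∧
    ((F.neighborSet v).ncard = 0 →
      m v = v ∧ (pc F m v (nb v 0), pc F m v (nb v 1), pc F m v (nb v 2)) = (0, 0, 0)) := by
  obtain ⟨h01, h02, h12⟩ := nb_inj v
  have n0 := nb_ne v 0
  have n1 := nb_ne v 1
  have n2 := nb_ne v 2
  rw [ncard_nbr hF]
  by_cases hv : m v = v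
  · by_cases a0 : F.Adj v (nb v 0) <;> by_cases a1 : F.Adj v (nb v 1) <;>
      by_cases a2 : F.Adj v (nb v 2) <;>
      simp [pc, a0, a1, a2, hv, n0.symm, n1.symm, n2.symm, patsS]
  · have hadj := hm.2 v hv
    obtain ⟨i, hi⟩ := G_adj.mp (hF hadj)
    have hcase : m v = nb v 0 ∨ m v = nb v 1 ∨ m v = nb v 2 := by
      rw [← hi]
      fin_cases i <;> simp
    rcases hcase with e | e | e <;> rw [e] at hadj <;>
      by_cases a0 : F.Adj v (nb v 0) <;> by_cases a1 : F.Adj v (nb v 1) <;>
      by_cases a2 : F.Adj v (nb v 2) <;>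
      first
      | contradiction
      | simp [pc, a0, a1, a2, e, n0, n1, n2, h01, h02, h12, h01.symm, h02.symm, h12.symm, pats0]

theorem sum_fixed (m : Fin 82 → Fin 82) :
    ((List.finRange 82).map fun v => if m v = v then 1 else 0).sum = {v | m v = v}.ncard := by
  rw [← Fin.sum_univ_def, Finset.sum_boole, ← Set.ncard_coe_finset]
  simp

theorem col_tri {F : SimpleGraph (Fin 82)} {m : Fin 82 → Fin 82} (hm : IsInv F m) (v : Fin 82)
    (i : Fin 3) :
    pc F m (ends (comp (tri v) i)).1 (ends (comp (tri v) i)).2 = pc F m v (nb v i) := by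
  rcases ends_tri v i with h | h
  · rw [h]
  · rw [h, pc_symm hm]

theorem fixed_even {F : SimpleGraph (Fin 82)} {m : Fin 82 → Fin 82} (hm : IsInv F m) :
    {v | m v = v}.ncard % 2 = 0 := by
  have := parity_inv m hm.1 Set.univ (fun _ _ => trivial)
  simp only [Set.ncard_univ, Nat.card_eq_fintype_card, Fintype.card_fin, Set.mem_univ,
    true_and] at this
  unfold Nat.ModEq at this
  omega

theorem strong_lower {F : SimpleGraph (Fin 82)} (hF : IsTwoFactor G F) :
    6 ≤ F.oddComponents.ncard := by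
  obtain ⟨m, hm, hle⟩ := exists_inv (F := F) fun v => (hF.2 v).le
  have h := run_sound (col := fun e => pc F m (ends e).1 (ends e).2) (fun e => pc_lt _ _ _ _) patsS
    tri (fun v => if m v = v then 1 else 0) (fun v => by
      have e0 := col_tri hm v 0
      have e1 := col_tri hm v 1
      have e2 := col_tri hm v 2
      simp only [comp, Matrix.cons_val_zero, Matrix.cons_val_one, Matrix.cons_val] at e0 e1 e2
      simp only [e0, e1, e2]
      rcases (local_pat hF.1 hm v).1 (hF.2 v) with ⟨h1, h2⟩ | ⟨h1, h2⟩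
      · exact Or.inl ⟨if_neg h1, h2⟩
      · exact Or.inr ⟨if_pos h1, h2⟩)
    (List.finRange 82) [0] [] [] [] [] (by rw [map_tri]; exact run_strong) 0 0 (ok_zero _)
    (by simp)
  rw [sum_fixed] at h
  have := fixed_even hm
  omega

theorem weak_lower {F : SimpleGraph (Fin 82)} (hF : IsEvenFactor G F) :
    4 ≤ F.oddComponents.ncard := by
  obtain ⟨m, hm, hle⟩ := exists_inv (F := F) fun v => by rcases hF.2 v with h | h <;> omega
  have h := run_sound (col := fun e => pc F m (ends e).1 (ends e).2) (fun e => pc_lt _ _ _ _) patsW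
    tri (fun v => if m v = v then 1 else 0) (fun v => by
      have e0 := col_tri hm v 0
      have e1 := col_tri hm v 1
      have e2 := col_tri hm v 2
      simp only [comp, Matrix.cons_val_zero, Matrix.cons_val_one, Matrix.cons_val] at e0 e1 e2
      simp only [e0, e1, e2]
      rcases hF.2 v with h0 | h0
      · obtain ⟨h1, h2⟩ := (local_pat hF.1 hm v).2 h0
        exact Or.inr ⟨if_pos h1, by rw [h2]; simp [patsW]⟩
      · rcases (local_pat hF.1 hm v).1 h0 with ⟨h1, h2⟩ | ⟨h1, h2⟩
        · exact Or.inl ⟨if_neg h1, h2⟩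
        · refine Or.inr ⟨if_pos h1, ?_⟩
          simp only [patsS, patsW, List.mem_cons] at h2 ⊢
          tauto)
    (List.finRange 82) [] [] [0] [] [] (by rw [map_tri]; exact run_weak) 2 0 (ok_zero _)
    (by simp)
  rw [sum_fixed] at h
  have := fixed_even hm
  omega

theorem ncard_eq_card (F : SimpleGraph (Fin 82)) [DecidableRel F.Adj] (v : Fin 82) :
    (F.neighborSet v).ncard = (Finset.univ.filter fun w => F.Adj v w).card := by
  rw [← Set.ncard_coe_finset]
  congr 1
  ext w
  simp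

theorem fixed_eq_card (m : Fin 82 → Fin 82) :
    {v | m v = v}.ncard = (Finset.univ.filter fun v => m v = v).card := by
  rw [← Set.ncard_coe_finset]
  congr 1
  ext w
  simp

theorem strong_upper : ∃ F, IsTwoFactor G F ∧ F.oddComponents.ncard ≤ 6 := by
  refine ⟨sub fun e => csT.getD e 0, ⟨sub_le _, ?_⟩, ?_⟩
  · simp only [ncard_eq_card]
    decide +kernel
  · have hm : IsInv (sub fun e => csT.getD e 0) fun v => vx (msT.getD v 0) := by
      unfold IsInv
      decide +kernel
    refine (odd_le_fixed hm).trans ?_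
    rw [fixed_eq_card]
    decide +kernel

theorem weak_upper : ∃ F, IsEvenFactor G F ∧ F.oddComponents.ncard ≤ 4 := by
  refine ⟨sub fun e => cwT.getD e 0, ⟨sub_le _, ?_⟩, ?_⟩
  · simp only [ncard_eq_card]
    decide +kernel
  · have hm : IsInv (sub fun e => cwT.getD e 0) fun v => vx (mwT.getD v 0) := by
      unfold IsInv
      decide +kernel
    refine (odd_le_fixed hm).trans ?_
    rw [fixed_eq_card]
    decide +kernel

theorem oddness_G : HasOddness G 6 := by
  obtain ⟨F, hF, h⟩ := strong_upper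
  refine ⟨⟨F, hF, le_antisymm h (strong_lower hF)⟩, ?_⟩
  rintro _ ⟨F', hF', rfl⟩
  exact strong_lower hF'

theorem weakOddness_G : HasWeakOddness G 4 := by
  obtain ⟨F, hF, h⟩ := weak_upper
  refine ⟨⟨F, hF, le_antisymm h (weak_lower hF)⟩, ?_⟩
  rintro _ ⟨F', hF', rfl⟩
  exact weak_lower hF'

theorem cubic_G (v : Fin 82) : (G.neighborSet v).ncard = 3 := by
  rw [ncard_eq_card]
  revert v
  decide +kernel

/-- `l` is a walk in `H` from `u` to `w`. -/
def IsRoute (H : Fin 82 → Fin 82 → Prop) (w : Fin 82) : List ℕ → Fin 82 → Prop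
  | [], u => u = w
  | k :: l, u => H u (vx k) ∧ IsRoute H w l (vx k)

instance decRoute (H : Fin 82 → Fin 82 → Prop) [DecidableRel H] (w : Fin 82) :
    ∀ (l : List ℕ) (u : Fin 82), Decidable (IsRoute H w l u)
  | [], u => inferInstanceAs (Decidable (u = w))
  | k :: l, u => @instDecidableAnd _ _ _ (decRoute H w l (vx k))

theorem reach_of_route {K : SimpleGraph (Fin 82)} {H : Fin 82 → Fin 82 → Prop}
    (hH : ∀ a b, H a b → K.Adj a b) (w : Fin 82) :
    ∀ (l : List ℕ) (u : Fin 82), IsRoute H w l u → K.Reachable u w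
  | [], _, h => h ▸ Reachable.refl _
  | k :: l, u, h => (hH u (vx k) h.1).reachable.trans (reach_of_route hH w l (vx k) h.2)

theorem routes : ∀ (v : Fin 82) (i : Fin 3),
    IsRoute (fun a b => G.Adj a b ∧ ¬ (a = v ∧ b = nb v i) ∧ ¬ (a = nb v i ∧ b = v)) (nb v i)
      ((pathT.getD v []).getD i []) v := by
  decide +kernel

theorem routes0 : ∀ v : Fin 82, IsRoute G.Adj v (connT.getD v []) 0 := by
  decide +kernel

theorem bridgeless_G : ∀ e ∈ G.edgeSet, ¬ G.IsBridge e := by
  intro e he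
  induction e using Sym2.ind with
  | _ u w =>
  obtain ⟨i, rfl⟩ := (G_adj (u := u) (v := w)).mp he
  rw [isBridge_iff, not_not]
  refine reach_of_route ?_ _ _ _ (routes u i)
  rintro a b ⟨h1, h2, h3⟩
  rw [deleteEdges_adj]
  refine ⟨h1, ?_⟩
  rw [Set.mem_singleton_iff, Sym2.eq_iff]
  tauto

theorem connected_G : G.Connected := by
  have h := fun v => reach_of_route (K := G) (fun _ _ h => h) v _ _ (routes0 v)
  exact ⟨fun u v => (h u).symm.trans (h v)⟩

end Pool.Agent.P.MP_ada129_co
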