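import Pool.Agent.P.MP_ada129_co.DP
import Pool.Agent.P.MP_ada129_co.Data

set_option autoImplicit false

namespace Pool.Agent.P.MP_ada129_co

/-- Defect patterns of a 2-factor. -/
def patsS : List (ℕ × ℕ × ℕ) := [(0, 2, 2), (2, 0, 2), (2, 2, 0)]

/-- Defect patterns of an even factor. -/
def patsW : List (ℕ × ℕ × ℕ) := [(0, 2, 2), (2, 0, 2), (2, 2, 0), (0, 0, 0)]

theorem run_strong : run patsS eiT [0] [] [] [] [] = true := by decide +kernel

theorem run_weak : run patsW eiT [] [] [0] [] [] = true := by decide +kernel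

end Pool.Agent.P.MP_ada129_co
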