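import Pool.Agent.P.MP_ada129_co.Graph

set_option autoImplicit false

open Pool.Agent.P.MP_ada129_co

namespace Pool.Agent.Results.MP_ada129_co.Counterexample

/-- There is a connected bridgeless cubic (simple) graph on 82 vertices with weak oddness 4 and
oddness 6. -/
theorem result :
    ∃ G : SimpleGraph (Fin 82), G.Connected ∧ (∀ v, (G.neighborSet v).ncard = 3) ∧
      (∀ e ∈ G.edgeSet, ¬ G.IsBridge e) ∧ HasWeakOddness G 4 ∧ HasOddness G 6 :=
  ⟨G, connected_G, cubic_G, bridgeless_G, weakOddness_G, oddness_G⟩

end Pool.Agent.Results.MP_ada129_co.Counterexample
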